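import Pool.Agent.Lib.MP_a264d8_lc.Main

/-!
If `(ℵ_{ω+ω}, ℵ_ω) ↠ (ℵ_ω, ℵ_n)` holds for some `n` and `2 ^ ℵ_0 < ℵ_ω`, then `ℵ_ω ^ ℵ_0 < ℵ_{ω+ω}`.
-/

namespace Pool.Agent.Results.MP_a264d8_lc.Arithmetic

open Cardinal Ordinal Pool.Agent.Lib.MP_a264d8_lc

theorem result (n : ℕ) (h : ChangConj (ℵ_ (ω + ω)) (ℵ_ ω) (ℵ_ ω) (ℵ_ (n : Ordinal)))
    (hc : 2 ^ ℵ₀ < ℵ_ (ω : Ordinal.{0})) : ℵ_ (ω : Ordinal.{0}) ^ ℵ₀ < ℵ_ (ω + ω) :=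
  arith1 h hc

end Pool.Agent.Results.MP_a264d8_lc.Arithmetic
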