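import Pool.Agent.Lib.MP_a264d8_lc.Shape4

/-!
If `(ℵ_{ω+ω}, ℵ_ω) ↠ (ℵ_ω, ℵ_n)` holds, then there is one function `s` from the ordinals below
`ω + ω` to the natural numbers, with `s 0 = 0` and `s ω = n`, nondecreasing, growing by steps of
one, unbounded, such that `(ℵ_b, ℵ_a) ↠ (ℵ_{s b}, ℵ_{s a})` for all `a < b < ω + ω`, and, more
strongly, every structure on `ω_{ω+ω}` has for every `c < ω + ω` an elementary substructure `X` of
size `ℵ_ω` with `|X ∩ ω_a| = ℵ_{s a}` for all `a ≤ c` at once.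
-/

namespace Pool.Agent.Results.MP_a264d8_lc.LocalChang

open Cardinal Ordinal Pool.Agent.Lib.MP_a264d8_lc

theorem result (n : ℕ) (h : ChangConj (ℵ_ (ω + ω)) (ℵ_ ω) (ℵ_ ω) (ℵ_ (n : Ordinal))) :
    ∃ s : Ordinal.{0} → ℕ, s 0 = 0 ∧ s ω = n ∧
      (∀ a b : Ordinal.{0}, a ≤ b → b < ω + ω → s a ≤ s b) ∧
      (∀ a < ω + ω, s (a + 1) ≤ s a + 1) ∧
      (∀ m : ℕ, ∃ a : Ordinal.{0}, a < ω + ω ∧ s a = m ∧ s (a + 1) = m + 1) ∧
      (∀ c < ω + ω, Shape s c) ∧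
      ∀ a b : Ordinal.{0}, a < b → b < ω + ω →
        ChangConj (ℵ_ b) (ℵ_ a) (ℵ_ (s b : Ordinal)) (ℵ_ (s a : Ordinal)) :=
  uniform_shape h

end Pool.Agent.Results.MP_a264d8_lc.LocalChang
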