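import Pool.Agent.Lib.MP_a264d8_lc.Main

/-!
If `(ℵ_{ω+ω}, ℵ_ω) ↠ (ℵ_ω, ℵ_n)` holds for some `n`, then the cofinalities of all the ultraproducts
`∏ ω_i / U` over nonprincipal ultrafilters `U` on `ℕ` are bounded by one cardinal `ℵ_{ω+k}`, `k < ω`.
-/

namespace Pool.Agent.Results.MP_a264d8_lc.PcfBound

open Cardinal Ordinal Pool.Agent.Lib.MP_a264d8_lc

theorem result (n : ℕ) (h : ChangConj (ℵ_ (ω + ω)) (ℵ_ ω) (ℵ_ ω) (ℵ_ (n : Ordinal))) :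
    ∃ k : ℕ, ∀ U : Ultrafilter ℕ, (U : Filter ℕ) ≤ Filter.cofinite →
      ultraCof U ≤ ℵ_ (ω + (k : Ordinal)) :=
  ultra_bound h

end Pool.Agent.Results.MP_a264d8_lc.PcfBound
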